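import Pool.Agent.Lib.MP_a60258_s6.Split
import Pool.Agent.Lib.MP_a60258_s6.D10

/-! Enumeration for p = 10, part 3 (generated). -/

set_option maxRecDepth 1000000

namespace A602.S6.K.E10_3

/-- pieces -/
def g0 : List PC := [⟨4, 3, 2, 1, 0, 1, 1⟩]

theorem e0 : enL 10 D10.N D10.tab g0 = true := by decide +kernel

end A602.S6.K.E10_3
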