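import Pool.Agent.Lib.MP_a60258_s6.Split
import Pool.Agent.Lib.MP_a60258_s6.D4

/-! Enumeration for p = 4, part 0 (generated). -/

set_option maxRecDepth 1000000

namespace A602.S6.K.E4_0

/-- pieces -/
def g0 : List PC := [⟨1, 1, 1, 1, 0, 0, 0⟩, ⟨1, 1, 1, 1, 0, 0, 1⟩, ⟨1, 1, 1, 1, 0, 1, 0⟩, ⟨1, 1, 1, 1, 0, 1, 1⟩, ⟨2, 1, 1, 0, 0, 0, 0⟩, ⟨2, 1, 1, 0, 0, 0, 1⟩, ⟨2, 1, 1, 0, 0, 0, 2⟩, ⟨2, 1, 1, 0, 0, 1, 0⟩, ⟨2, 1, 1, 0, 0, 1, 1⟩, ⟨2, 1, 1, 0, 0, 2, 0⟩, ⟨2, 2, 0, 0, 0, 0, 0⟩, ⟨2, 2, 0, 0, 0, 0, 1⟩, ⟨2, 2, 0, 0, 0, 0, 2⟩, ⟨2, 2, 0, 0, 0, 1, 0⟩, ⟨2, 2, 0, 0, 0, 1, 1⟩, ⟨2, 2, 0, 0, 0, 2, 0⟩, ⟨3, 1, 0, 0, 0, 0, 0⟩, ⟨3, 1, 0, 0, 0, 0, 1⟩, ⟨3, 1,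 0, 0, 0, 1, 0⟩, ⟨4, 0, 0, 0, 0, 0, 0⟩]

theorem e0 : enL 4 D4.N D4.tab g0 = true := by decide +kernel

end A602.S6.K.E4_0
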