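import Pool.Agent.Lib.MP_a60258_s6.Split
import Pool.Agent.Lib.MP_a60258_s6.D9

/-! Enumeration for p = 9, part 3 (generated). -/

set_option maxRecDepth 1000000

namespace A602.S6.K.E9_3

/-- pieces -/
def g0 : List PC := [⟨4, 4, 1, 0, 0, 1, 3⟩, ⟨4, 4, 1, 0, 0, 1, 4⟩, ⟨4, 4, 1, 0, 0, 2, 0⟩, ⟨4, 4, 1, 0, 0, 2, 1⟩, ⟨4, 4, 1, 0, 0, 2, 2⟩, ⟨4, 4, 1, 0, 0, 2, 3⟩, ⟨4, 4, 1, 0, 0, 3, 0⟩, ⟨4, 4, 1, 0, 0, 3, 1⟩, ⟨4, 4, 1, 0, 0, 3, 2⟩, ⟨4, 4, 1, 0, 0, 4, 0⟩, ⟨4, 4, 1, 0, 0, 4, 1⟩, ⟨5, 1, 1, 1, 1, 0, 0⟩, ⟨5, 1, 1, 1, 1, 0, 1⟩, ⟨5, 1, 1, 1, 1, 0, 2⟩, ⟨5, 1, 1, 1, 1, 0, 3⟩, ⟨5, 1, 1, 1, 1, 0, 4⟩, ⟨5, 1, 1, 1, 1, 1, 0⟩, ⟨5, 1, 1, 1, 1, 1,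 1⟩, ⟨5, 1, 1, 1, 1, 1, 2⟩, ⟨5, 1, 1, 1, 1, 1, 3⟩, ⟨5, 1, 1, 1, 1, 2, 0⟩, ⟨5, 1, 1, 1, 1, 2, 1⟩, ⟨5, 1, 1, 1, 1, 2, 2⟩, ⟨5, 1, 1, 1, 1, 3, 0⟩, ⟨5, 1, 1, 1, 1, 3, 1⟩, ⟨5, 1, 1, 1, 1, 4, 0⟩, ⟨5, 2, 1, 1, 0, 0, 0⟩, ⟨5, 2, 1, 1, 0, 0, 1⟩, ⟨5, 2, 1, 1, 0, 0, 2⟩, ⟨5, 2, 1, 1, 0, 0, 3⟩, ⟨5, 2, 1, 1, 0, 0, 4⟩, ⟨5, 2, 1, 1, 0, 1, 0⟩]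

theorem e0 : enL 9 D9.N D9.tab g0 = true := by decide +kernel

/-- pieces -/
def g1 : List PC := [⟨5, 2, 1, 1, 0, 1, 1⟩]

theorem e1 : enL 9 D9.N D9.tab g1 = true := by decide +kernel

/-- pieces -/
def g2 : List PC := [⟨5, 2, 1, 1, 0, 1, 2⟩, ⟨5, 2, 1, 1, 0, 1, 3⟩, ⟨5, 2, 1, 1, 0, 2, 0⟩]

theorem e2 : enL 9 D9.N D9.tab g2 = true := by decide +kernel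

/-- pieces -/
def g3 : List PC := [⟨5, 2, 1, 1, 0, 2, 1⟩, ⟨5, 2, 1, 1, 0, 2, 2⟩, ⟨5, 2, 1, 1, 0, 3, 0⟩, ⟨5, 2, 1, 1, 0, 3, 1⟩, ⟨5, 2, 1, 1, 0, 4, 0⟩, ⟨5, 2, 2, 0, 0, 0, 0⟩, ⟨5, 2, 2, 0, 0, 0, 1⟩, ⟨5, 2, 2, 0, 0, 0, 2⟩, ⟨5, 2, 2, 0, 0, 0, 3⟩, ⟨5, 2, 2, 0, 0, 0, 4⟩]

theorem e3 : enL 9 D9.N D9.tab g3 = true := by decide +kernel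

end A602.S6.K.E9_3
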