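import Pool.Agent.Lib.MP_a60258_s6.Split
import Pool.Agent.Lib.MP_a60258_s6.D9

/-! Enumeration for p = 9, part 7 (generated). -/

set_option maxRecDepth 1000000

namespace A602.S6.K.E9_7

/-- pieces -/
def g0 : List PC := [⟨7, 2, 0, 0, 0, 0, 1⟩, ⟨7, 2, 0, 0, 0, 0, 2⟩, ⟨7, 2, 0, 0, 0, 1, 0⟩, ⟨7, 2, 0, 0, 0, 1, 1⟩, ⟨7, 2, 0, 0, 0, 2, 0⟩, ⟨8, 1, 0, 0, 0, 0, 0⟩, ⟨8, 1, 0, 0, 0, 0, 1⟩, ⟨8, 1, 0, 0, 0, 1, 0⟩, ⟨9, 0, 0, 0, 0, 0, 0⟩]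

theorem e0 : enL 9 D9.N D9.tab g0 = true := by decide +kernel

end A602.S6.K.E9_7
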