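import Pool.Agent.Lib.MP_a60258_s6.Split2
import Pool.Agent.Lib.MP_a60258_s6.D10

/-! Check of the blocks for p = 10, part 0 (generated). -/

set_option maxRecDepth 1000000

namespace A602.S6.K.O10_0

theorem ok_b14_0 : okP 10 D10.b14 0 2 = true := by decide +kernel

theorem oh_b14 : okH 10 D10.b14 = true := by decide +kernel

theorem oz_b14 : okD 10 D10.b14 2 = true := by decide +kernel

theorem dd_b14 : ddB 10 (cm (10 - 1) 1 0) D10.b14 = true := by decide +kernel

theorem ok_b13_0 : okP 10 D10.b13 0 4 = true := by decide +kernel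

theorem oh_b13 : okH 10 D10.b13 = true := by decide +kernel

theorem oz_b13 : okD 10 D10.b13 4 = true := by decide +kernel

theorem dd_b13 : ddB 10 (cm (10 - 1) 1 0) D10.b13 = true := by decide +kernel

theorem ok_b12_0 : okP 10 D10.b12 0 7 = true := by decide +kernel

theorem oh_b12 : okH 10 D10.b12 = true := by decide +kernel

theorem oz_b12 : okD 10 D10.b12 7 = true := by decide +kernel

theorem dd_b12 : ddB 10 (cm (10 - 1) 1 0) D10.b12 = true := by decide +kernel

theorem ok_b11_0 : okP 10 D10.b11 0 10 = true := by decide +kernel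

theorem oh_b11 : okH 10 D10.b11 = true := by decide +kernel

theorem oz_b11 : okD 10 D10.b11 10 = true := by decide +kernel

theorem dd_b11 : ddB 10 (cm (10 - 1) 1 0) D10.b11 = true := by decide +kernel

theorem ok_b10_0 : okP 10 D10.b10 0 6 = true := by decide +kernel

theorem ok_b10_6 : okP 10 D10.b10 6 7 = true := by decide +kernel

theorem oh_b10 : okH 10 D10.b10 = true := by decide +kernel

theorem oz_b10 : okD 10 D10.b10 13 = true := by decide +kernel

theorem dd_b10 : ddB 10 (cm (10 - 1) 1 0) D10.b10 = true := by decide +kernel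

theorem ok_b9_0 : okP 10 D10.b9 0 3 = true := by decide +kernel

theorem ok_b9_3 : okP 10 D10.b9 3 1 = true := by decide +kernel

theorem ok_b9_4 : okP 10 D10.b9 4 1 = true := by decide +kernel

end A602.S6.K.O10_0
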