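import Pool.Agent.Lib.MP_a60258_s6.Split2
import Pool.Agent.Lib.MP_a60258_s6.D10

/-! Check of the blocks for p = 10, part 2 (generated). -/

set_option maxRecDepth 1000000

namespace A602.S6.K.O10_2

theorem ok_b8_4 : okP 10 D10.b8 4 1 = true := by decide +kernel

theorem ok_b8_5 : okP 10 D10.b8 5 1 = true := by decide +kernel

theorem ok_b8_6 : okP 10 D10.b8 6 2 = true := by decide +kernel

theorem ok_b8_8 : okP 10 D10.b8 8 1 = true := by decide +kernel

theorem oh_b8 : okH 10 D10.b8 = true := by decide +kernel

theorem oz_b8 : okD 10 D10.b8 9 = true := by decide +kernel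

theorem dd_b8 : ddB 10 (cm (10 - 1) 1 0) D10.b8 = true := by decide +kernel

theorem ok_b7_0 : okP 10 D10.b7 0 2 = true := by decide +kernel

end A602.S6.K.O10_2
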