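import Pool.Agent.Lib.MP_a60258_s6.Split2
import Pool.Agent.Lib.MP_a60258_s6.D10

/-! Check of the blocks for p = 10, part 4 (generated). -/

set_option maxRecDepth 1000000

namespace A602.S6.K.O10_4

theorem ok_b6_1 : okP 10 D10.b6 1 1 = true := by decide +kernel

theorem ok_b6_2 : okP 10 D10.b6 2 1 = true := by decide +kernel

theorem ok_b6_3 : okP 10 D10.b6 3 1 = true := by decide +kernel

end A602.S6.K.O10_4
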