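import Pool.Agent.Lib.MP_a60258_s6.Split2
import Pool.Agent.Lib.MP_a60258_s6.D10

/-! Check of the blocks for p = 10, part 5 (generated). -/

set_option maxRecDepth 1000000

namespace A602.S6.K.O10_5

theorem ok_b6_4 : okP 10 D10.b6 4 1 = true := by decide +kernel

theorem ok_b6_5 : okP 10 D10.b6 5 1 = true := by decide +kernel

theorem oh_b6 : okH 10 D10.b6 = true := by decide +kernel

theorem oz_b6 : okD 10 D10.b6 6 = true := by decide +kernel

theorem dd_b6 : ddB 10 (cm (10 - 1) 1 0) D10.b6 = true := by decide +kernel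

theorem ok_b5_0 : okP 10 D10.b5 0 4 = true := by decide +kernel

theorem oh_b5 : okH 10 D10.b5 = true := by decide +kernel

theorem oz_b5 : okD 10 D10.b5 4 = true := by decide +kernel

theorem dd_b5 : ddB 10 (cm (10 - 1) 1 0) D10.b5 = true := by decide +kernel

theorem ok_b4_0 : okP 10 D10.b4 0 3 = true := by decide +kernel

theorem oh_b4 : okH 10 D10.b4 = true := by decide +kernel

theorem oz_b4 : okD 10 D10.b4 3 = true := by decide +kernel

theorem dd_b4 : ddB 10 (cm (10 - 1) 1 0) D10.b4 = true := by decide +kernel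

theorem ok_b3_0 : okP 10 D10.b3 0 2 = true := by decide +kernel

theorem oh_b3 : okH 10 D10.b3 = true := by decide +kernel

theorem oz_b3 : okD 10 D10.b3 2 = true := by decide +kernel

theorem dd_b3 : ddB 10 (cm (10 - 1) 1 0) D10.b3 = true := by decide +kernel

theorem ok_b2_0 : okP 10 D10.b2 0 1 = true := by decide +kernel

theorem oh_b2 : okH 10 D10.b2 = true := by decide +kernel

theorem oz_b2 : okD 10 D10.b2 1 = true := by decide +kernel

theorem dd_b2 : ddB 10 (cm (10 - 1) 1 0) D10.b2 = true := by decide +kernel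

end A602.S6.K.O10_5
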