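import Pool.Agent.Lib.MP_a60258_s6.Iface
import Pool.Agent.Lib.MP_a60258_s6.K.E10_0
import Pool.Agent.Lib.MP_a60258_s6.K.E10_1
import Pool.Agent.Lib.MP_a60258_s6.K.E10_2
import Pool.Agent.Lib.MP_a60258_s6.K.E10_3
import Pool.Agent.Lib.MP_a60258_s6.K.E10_4
import Pool.Agent.Lib.MP_a60258_s6.K.E10_5
import Pool.Agent.Lib.MP_a60258_s6.K.E10_6
import Pool.Agent.Lib.MP_a60258_s6.K.E10_7
import Pool.Agent.Lib.MP_a60258_s6.K.E10_8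
import Pool.Agent.Lib.MP_a60258_s6.K.E10_9
import Pool.Agent.Lib.MP_a60258_s6.K.E10_10
import Pool.Agent.Lib.MP_a60258_s6.K.E10_11
import Pool.Agent.Lib.MP_a60258_s6.K.E10_12
import Pool.Agent.Lib.MP_a60258_s6.K.E10_13
import Pool.Agent.Lib.MP_a60258_s6.K.E10_14
import Pool.Agent.Lib.MP_a60258_s6.K.E10_15
import Pool.Agent.Lib.MP_a60258_s6.K.E10_16
import Pool.Agent.Lib.MP_a60258_s6.K.E10_17
import Pool.Agent.Lib.MP_a60258_s6.K.E10_18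
import Pool.Agent.Lib.MP_a60258_s6.K.E10_19
import Pool.Agent.Lib.MP_a60258_s6.K.E10_20
import Pool.Agent.Lib.MP_a60258_s6.K.E10_21
import Pool.Agent.Lib.MP_a60258_s6.K.E10_22
import Pool.Agent.Lib.MP_a60258_s6.K.E10_23
import Pool.Agent.Lib.MP_a60258_s6.K.E10_24
import Pool.Agent.Lib.MP_a60258_s6.K.E10_25
import Pool.Agent.Lib.MP_a60258_s6.K.E10_26
import Pool.Agent.Lib.MP_a60258_s6.K.O10_0
import Pool.Agent.Lib.MP_a60258_s6.K.O10_1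
import Pool.Agent.Lib.MP_a60258_s6.K.O10_2
import Pool.Agent.Lib.MP_a60258_s6.K.O10_3
import Pool.Agent.Lib.MP_a60258_s6.K.O10_4
import Pool.Agent.Lib.MP_a60258_s6.K.O10_5

/-! Assembly for p = 10 (generated). -/

set_option maxRecDepth 1000000

open MvPolynomial

namespace A602.S6.K

theorem en10 : enL 10 D10.N D10.tab (pieces 10) = true :=
  enL_pco (l := K.E10_0.g0 ++ (K.E10_0.g1 ++ (K.E10_0.g2 ++ (K.E10_0.g3 ++ (K.E10_0.g4 ++ (K.E10_1.g0 ++ (K.E10_1.g1 ++ (K.E10_1.g2 ++ (K.E10_1.g3 ++ (K.E10_2.g0 ++ (K.E10_2.g1 ++ (K.E10_2.g2 ++ (K.E10_3.g0 ++ (K.E10_4.g0 ++ (K.E10_4.g1 ++ (K.E10_4.g2 ++ (K.E10_5.g0 ++ (K.E10_5.g1 ++ (K.E10_5.g2 ++ (K.E10_5.g3 ++ (K.E10_5.g4 ++ (K.E10_6.g0 ++ (K.E10_6.g1 ++ (K.E10_6.g2 ++ (K.E10_6.g3 ++ (K.E10_6.g4 ++ (K.E10_7.g0 ++ (K.E10_7.g1 ++ (K.E10_7.g2 ++ (K.E10_7.g3 ++ (K.E10_7.g4 ++ (K.E10_8.g0 ++ (K.E10_8.g1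 ++ (K.E10_8.g2 ++ (K.E10_8.g3 ++ (K.E10_8.g4 ++ (K.E10_9.g0 ++ (K.E10_9.g1 ++ (K.E10_9.g2 ++ (K.E10_10.g0 ++ (K.E10_10.g1 ++ (K.E10_11.g0 ++ (K.E10_11.g1 ++ (K.E10_11.g2 ++ (K.E10_12.g0 ++ (K.E10_12.g1 ++ (K.E10_13.g0 ++ (K.E10_13.g1 ++ (K.E10_13.g2 ++ (K.E10_13.g3 ++ (K.E10_14.g0 ++ (K.E10_14.g1 ++ (K.E10_14.g2 ++ (K.E10_14.g3 ++ (K.E10_15.g0 ++ (K.E10_15.g1 ++ (K.E10_15.g2 ++ (K.E10_15.g3 ++ (K.E10_15.g4 ++ (K.E10_16.g0 ++ (K.E10_16.g1 ++ (K.E10_16.g2 ++ (K.E10_17.g0 ++ (K.E10_17.g1 ++ (K.E10_17.g2 ++ (K.E10_18.g0 ++ (K.E10_18.g1 ++ (K.E10_18.g2 ++ (K.E10_18.g3 ++ (K.E10_18.g4 ++ (K.E10_19.g0 ++ (K.E10_20.g0 ++ (K.E10_20.g1 ++ (K.E10_20.g2 ++ (K.E10_20.g3 ++ (K.E10_21.g0 ++ (K.E10_21.g1 ++ (K.E10_21.g2 ++ (K.E10_21.g3 ++ (K.E10_22.g0 ++ (K.E10_22.g1 ++ (K.E10_22.g2 ++ (K.E10_22.g3 ++ (K.E10_23.g0 ++ (K.E10_23.g1 ++ (K.E10_23.g2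 ++ (K.E10_23.g3 ++ (K.E10_24.g0 ++ (K.E10_24.g1 ++ (K.E10_24.g2 ++ (K.E10_24.g3 ++ (K.E10_25.g0 ++ (K.E10_25.g1 ++ (K.E10_25.g2 ++ (K.E10_25.g3 ++ (K.E10_26.g0 ++ (K.E10_26.g1 ++ (K.E10_26.g2 ++ (K.E10_26.g3 ++ (K.E10_26.g4 ++ (K.E10_26.g5)))))))))))))))))))))))))))))))))))))))))))))))))))))))))))))))))))))))))))))))))))))))))))))))))))))
    (by decide +kernel) (enL_append K.E10_0.e0 (enL_append K.E10_0.e1 (enL_append K.E10_0.e2 (enL_append K.E10_0.e3 (enL_append K.E10_0.e4 (enL_append K.E10_1.e0 (enL_append K.E10_1.e1 (enL_append K.E10_1.e2 (enL_append K.E10_1.e3 (enL_append K.E10_2.e0 (enL_append K.E10_2.e1 (enL_append K.E10_2.e2 (enL_append K.E10_3.e0 (enL_append K.E10_4.e0 (enL_append K.E10_4.e1 (enL_append K.E10_4.e2 (enL_append K.E10_5.e0 (enL_append K.E10_5.e1 (enL_append K.E10_5.e2 (enL_append K.E10_5.e3 (enL_append K.E10_5.e4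 (enL_append K.E10_6.e0 (enL_append K.E10_6.e1 (enL_append K.E10_6.e2 (enL_append K.E10_6.e3 (enL_append K.E10_6.e4 (enL_append K.E10_7.e0 (enL_append K.E10_7.e1 (enL_append K.E10_7.e2 (enL_append K.E10_7.e3 (enL_append K.E10_7.e4 (enL_append K.E10_8.e0 (enL_append K.E10_8.e1 (enL_append K.E10_8.e2 (enL_append K.E10_8.e3 (enL_append K.E10_8.e4 (enL_append K.E10_9.e0 (enL_append K.E10_9.e1 (enL_append K.E10_9.e2 (enL_append K.E10_10.e0 (enL_append K.E10_10.e1 (enL_append K.E10_11.e0 (enL_append K.E10_11.e1 (enL_append K.E10_11.e2 (enL_append K.E10_12.e0 (enL_append K.E10_12.e1 (enL_append K.E10_13.e0 (enL_append K.E10_13.e1 (enL_append K.E10_13.e2 (enL_append K.E10_13.e3 (enL_append K.E10_14.e0 (enL_append K.E10_14.e1 (enL_append K.E10_14.e2 (enL_append K.E10_14.e3 (enL_append K.E10_15.e0 (enL_append K.E10_15.e1 (enL_append K.E10_15.e2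 (enL_append K.E10_15.e3 (enL_append K.E10_15.e4 (enL_append K.E10_16.e0 (enL_append K.E10_16.e1 (enL_append K.E10_16.e2 (enL_append K.E10_17.e0 (enL_append K.E10_17.e1 (enL_append K.E10_17.e2 (enL_append K.E10_18.e0 (enL_append K.E10_18.e1 (enL_append K.E10_18.e2 (enL_append K.E10_18.e3 (enL_append K.E10_18.e4 (enL_append K.E10_19.e0 (enL_append K.E10_20.e0 (enL_append K.E10_20.e1 (enL_append K.E10_20.e2 (enL_append K.E10_20.e3 (enL_append K.E10_21.e0 (enL_append K.E10_21.e1 (enL_append K.E10_21.e2 (enL_append K.E10_21.e3 (enL_append K.E10_22.e0 (enL_append K.E10_22.e1 (enL_append K.E10_22.e2 (enL_append K.E10_22.e3 (enL_append K.E10_23.e0 (enL_append K.E10_23.e1 (enL_append K.E10_23.e2 (enL_append K.E10_23.e3 (enL_append K.E10_24.e0 (enL_append K.E10_24.e1 (enL_append K.E10_24.e2 (enL_append K.E10_24.e3 (enL_append K.E10_25.e0 (enL_append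 K.E10_25.e1 (enL_append K.E10_25.e2 (enL_append K.E10_25.e3 (enL_append K.E10_26.e0 (enL_append K.E10_26.e1 (enL_append K.E10_26.e2 (enL_append K.E10_26.e3 (enL_append K.E10_26.e4 (K.E10_26.e5)))))))))))))))))))))))))))))))))))))))))))))))))))))))))))))))))))))))))))))))))))))))))))))))))))))

theorem ok10_b14 : okB 10 D10.b14 = true :=
  okB_of K.O10_0.oh_b14 (okD_of 0 2 K.O10_0.ok_b14_0 (K.O10_0.oz_b14))

theorem ok10_b13 : okB 10 D10.b13 = true :=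
  okB_of K.O10_0.oh_b13 (okD_of 0 4 K.O10_0.ok_b13_0 (K.O10_0.oz_b13))

theorem ok10_b12 : okB 10 D10.b12 = true :=
  okB_of K.O10_0.oh_b12 (okD_of 0 7 K.O10_0.ok_b12_0 (K.O10_0.oz_b12))

theorem ok10_b11 : okB 10 D10.b11 = true :=
  okB_of K.O10_0.oh_b11 (okD_of 0 10 K.O10_0.ok_b11_0 (K.O10_0.oz_b11))

theorem ok10_b10 : okB 10 D10.b10 = true :=
  okB_of K.O10_0.oh_b10 (okD_of 0 6 K.O10_0.ok_b10_0 (okD_of 6 7 K.O10_0.ok_b10_6 (K.O10_0.oz_b10)))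

theorem ok10_b9 : okB 10 D10.b9 = true :=
  okB_of K.O10_1.oh_b9 (okD_of 0 3 K.O10_0.ok_b9_0 (okD_of 3 1 K.O10_0.ok_b9_3 (okD_of 4 1 K.O10_0.ok_b9_4 (okD_of 5 1 K.O10_1.ok_b9_5 (okD_of 6 1 K.O10_1.ok_b9_6 (okD_of 7 4 K.O10_1.ok_b9_7 (K.O10_1.oz_b9)))))))

theorem ok10_b8 : okB 10 D10.b8 = true :=
  okB_of K.O10_2.oh_b8 (okD_of 0 2 K.O10_1.ok_b8_0 (okD_of 2 1 K.O10_1.ok_b8_2 (okD_of 3 1 K.O10_1.ok_b8_3 (okD_of 4 1 K.O10_2.ok_b8_4 (okD_of 5 1 K.O10_2.ok_b8_5 (okD_of 6 2 K.O10_2.ok_b8_6 (okD_of 8 1 K.O10_2.ok_b8_8 (K.O10_2.oz_b8))))))))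

theorem ok10_b7 : okB 10 D10.b7 = true :=
  okB_of K.O10_3.oh_b7 (okD_of 0 2 K.O10_2.ok_b7_0 (okD_of 2 1 K.O10_3.ok_b7_2 (okD_of 3 1 K.O10_3.ok_b7_3 (okD_of 4 1 K.O10_3.ok_b7_4 (okD_of 5 1 K.O10_3.ok_b7_5 (okD_of 6 1 K.O10_3.ok_b7_6 (K.O10_3.oz_b7)))))))

theorem ok10_b6 : okB 10 D10.b6 = true :=
  okB_of K.O10_5.oh_b6 (okD_of 0 1 K.O10_3.ok_b6_0 (okD_of 1 1 K.O10_4.ok_b6_1 (okD_of 2 1 K.O10_4.ok_b6_2 (okD_of 3 1 K.O10_4.ok_b6_3 (okD_of 4 1 K.O10_5.ok_b6_4 (okD_of 5 1 K.O10_5.ok_b6_5 (K.O10_5.oz_b6)))))))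

theorem ok10_b5 : okB 10 D10.b5 = true :=
  okB_of K.O10_5.oh_b5 (okD_of 0 4 K.O10_5.ok_b5_0 (K.O10_5.oz_b5))

theorem ok10_b4 : okB 10 D10.b4 = true :=
  okB_of K.O10_5.oh_b4 (okD_of 0 3 K.O10_5.ok_b4_0 (K.O10_5.oz_b4))

theorem ok10_b3 : okB 10 D10.b3 = true :=
  okB_of K.O10_5.oh_b3 (okD_of 0 2 K.O10_5.ok_b3_0 (K.O10_5.oz_b3))

theorem ok10_b2 : okB 10 D10.b2 = true :=
  okB_of K.O10_5.oh_b2 (okD_of 0 1 K.O10_5.ok_b2_0 (K.O10_5.oz_b2))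

theorem okall10 : ∀ bl ∈ D10.tab, okB 10 bl = true := by
  intro bl hbl
  have h : bl ∈ ([D10.b14, D10.b13, D10.b12, D10.b11, D10.b10, D10.b9, D10.b8, D10.b7, D10.b6, D10.b5, D10.b4, D10.b3, D10.b2] : List BL) := hbl
  simp only [List.mem_cons, List.not_mem_nil, or_false] at h
  rcases h with h | h | h | h | h | h | h | h | h | h | h | h | h
  · rw [h]; exact ok10_b14
  · rw [h]; exact ok10_b13
  · rw [h]; exact ok10_b12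
  · rw [h]; exact ok10_b11
  · rw [h]; exact ok10_b10
  · rw [h]; exact ok10_b9
  · rw [h]; exact ok10_b8
  · rw [h]; exact ok10_b7
  · rw [h]; exact ok10_b6
  · rw [h]; exact ok10_b5
  · rw [h]; exact ok10_b4
  · rw [h]; exact ok10_b3
  · rw [h]; exact ok10_b2

theorem ddall10 : ∀ bl ∈ D10.tab, ddB 10 (cm (10 - 1) 1 0) bl = true := by
  intro bl hbl
  have h : bl ∈ ([D10.b14, D10.b13, D10.b12, D10.b11, D10.b10, D10.b9, D10.b8, D10.b7, D10.b6, D10.b5, D10.b4, D10.b3, D10.b2] : List BL) := hbl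
  simp only [List.mem_cons, List.not_mem_nil, or_false] at h
  rcases h with h | h | h | h | h | h | h | h | h | h | h | h | h
  · rw [h]; exact K.O10_0.dd_b14
  · rw [h]; exact K.O10_0.dd_b13
  · rw [h]; exact K.O10_0.dd_b12
  · rw [h]; exact K.O10_0.dd_b11
  · rw [h]; exact K.O10_0.dd_b10
  · rw [h]; exact K.O10_1.dd_b9
  · rw [h]; exact K.O10_2.dd_b8
  · rw [h]; exact K.O10_3.dd_b7
  · rw [h]; exact K.O10_5.dd_b6
  · rw [h]; exact K.O10_5.dd_b5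
  · rw [h]; exact K.O10_5.dd_b4
  · rw [h]; exact K.O10_5.dd_b3
  · rw [h]; exact K.O10_5.dd_b2

theorem nd10 : (D10.tab.map fun b => b.key).Nodup := by decide +kernel

theorem sn10 : ∃ sn ∈ D10.b10.ss, sn.code = cm (10 - 1) 1 0 := by decide +kernel

/-- the lower bound of the sixth cumulant, order 10 -/
theorem main10 (h : FinStatement) : ∃ c0 : ℝ, 0 < c0 ∧ ∀ (S : Finset ℕ) (P : R), Cha S 10 P →
    ∀ i : ℕ, c0 * E (pderiv i P ^ 2) ^ 3 ≤ k6 P := by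
  obtain ⟨sn, h1, h2⟩ := sn10
  exact h 10 D10.N D10.tab D10.b10 sn (by norm_num) (by norm_num) (by decide +kernel) nd10 okall10
    ddall10 (List.Mem.tail _ (List.Mem.tail _ (List.Mem.tail _ (List.Mem.tail _ (List.Mem.head _))))) h1 h2 (enum_of en10)

end A602.S6.K
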