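import Pool.Agent.Lib.MP_a60258_s6.Iface
import Pool.Agent.Lib.MP_a60258_s6.K.E3_0
import Pool.Agent.Lib.MP_a60258_s6.K.O3_0

/-! Assembly for p = 3 (generated). -/

set_option maxRecDepth 1000000

open MvPolynomial

namespace A602.S6.K

theorem en3 : enL 3 D3.N D3.tab (pieces 3) = true :=
  enL_pco (l := K.E3_0.g0)
    (by decide +kernel) (K.E3_0.e0)

theorem ok3_b4 : okB 3 D3.b4 = true := K.O3_0.ok_b4

theorem ok3_b3 : okB 3 D3.b3 = true := K.O3_0.ok_b3

theorem ok3_b2 : okB 3 D3.b2 = true := K.O3_0.ok_b2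

theorem okall3 : ∀ bl ∈ D3.tab, okB 3 bl = true := by
  intro bl hbl
  have h : bl ∈ ([D3.b4, D3.b3, D3.b2] : List BL) := hbl
  simp only [List.mem_cons, List.not_mem_nil, or_false] at h
  rcases h with h | h | h
  · rw [h]; exact ok3_b4
  · rw [h]; exact ok3_b3
  · rw [h]; exact ok3_b2

theorem ddall3 : ∀ bl ∈ D3.tab, ddB 3 (cm (3 - 1) 1 0) bl = true := by
  intro bl hbl
  have h : bl ∈ ([D3.b4, D3.b3, D3.b2] : List BL) := hbl
  simp only [List.mem_cons, List.not_mem_nil, or_false] at h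
  rcases h with h | h | h
  · rw [h]; exact K.O3_0.dd_b4
  · rw [h]; exact K.O3_0.dd_b3
  · rw [h]; exact K.O3_0.dd_b2

theorem nd3 : (D3.tab.map fun b => b.key).Nodup := by decide +kernel

theorem sn3 : ∃ sn ∈ D3.b3.ss, sn.code = cm (3 - 1) 1 0 := by decide +kernel

/-- the lower bound of the sixth cumulant, order 3 -/
theorem main3 (h : FinStatement) : ∃ c0 : ℝ, 0 < c0 ∧ ∀ (S : Finset ℕ) (P : R), Cha S 3 P →
    ∀ i : ℕ, c0 * E (pderiv i P ^ 2) ^ 3 ≤ k6 P := by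
  obtain ⟨sn, h1, h2⟩ := sn3
  exact h 3 D3.N D3.tab D3.b3 sn (by norm_num) (by norm_num) (by decide +kernel) nd3 okall3
    ddall3 (List.Mem.tail _ (List.Mem.head _)) h1 h2 (enum_of en3)

end A602.S6.K
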