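import Pool.Agent.Lib.MP_a60258_s6.Split2
import Pool.Agent.Lib.MP_a60258_s6.D4

/-! Check of the blocks for p = 4, part 0 (generated). -/

set_option maxRecDepth 1000000

namespace A602.S6.K.O4_0

theorem ok_b5 : okB 4 D4.b5 = true := by decide +kernel

theorem dd_b5 : ddB 4 (cm (4 - 1) 1 0) D4.b5 = true := by decide +kernel

theorem ok_b4 : okB 4 D4.b4 = true := by decide +kernel

theorem dd_b4 : ddB 4 (cm (4 - 1) 1 0) D4.b4 = true := by decide +kernel

theorem ok_b3 : okB 4 D4.b3 = true := by decide +kernel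

theorem dd_b3 : ddB 4 (cm (4 - 1) 1 0) D4.b3 = true := by decide +kernel

theorem ok_b2 : okB 4 D4.b2 = true := by decide +kernel

theorem dd_b2 : ddB 4 (cm (4 - 1) 1 0) D4.b2 = true := by decide +kernel

end A602.S6.K.O4_0
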