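import Pool.Agent.Lib.MP_a60258_s6.Iface
import Pool.Agent.Lib.MP_a60258_s6.K.E4_0
import Pool.Agent.Lib.MP_a60258_s6.K.O4_0

/-! Assembly for p = 4 (generated). -/

set_option maxRecDepth 1000000

open MvPolynomial

namespace A602.S6.K

theorem en4 : enL 4 D4.N D4.tab (pieces 4) = true :=
  enL_pco (l := K.E4_0.g0)
    (by decide +kernel) (K.E4_0.e0)

theorem ok4_b5 : okB 4 D4.b5 = true := K.O4_0.ok_b5

theorem ok4_b4 : okB 4 D4.b4 = true := K.O4_0.ok_b4

theorem ok4_b3 : okB 4 D4.b3 = true := K.O4_0.ok_b3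

theorem ok4_b2 : okB 4 D4.b2 = true := K.O4_0.ok_b2

theorem okall4 : ∀ bl ∈ D4.tab, okB 4 bl = true := by
  intro bl hbl
  have h : bl ∈ ([D4.b5, D4.b4, D4.b3, D4.b2] : List BL) := hbl
  simp only [List.mem_cons, List.not_mem_nil, or_false] at h
  rcases h with h | h | h | h
  · rw [h]; exact ok4_b5
  · rw [h]; exact ok4_b4
  · rw [h]; exact ok4_b3
  · rw [h]; exact ok4_b2

theorem ddall4 : ∀ bl ∈ D4.tab, ddB 4 (cm (4 - 1) 1 0) bl = true := by
  intro bl hbl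
  have h : bl ∈ ([D4.b5, D4.b4, D4.b3, D4.b2] : List BL) := hbl
  simp only [List.mem_cons, List.not_mem_nil, or_false] at h
  rcases h with h | h | h | h
  · rw [h]; exact K.O4_0.dd_b5
  · rw [h]; exact K.O4_0.dd_b4
  · rw [h]; exact K.O4_0.dd_b3
  · rw [h]; exact K.O4_0.dd_b2

theorem nd4 : (D4.tab.map fun b => b.key).Nodup := by decide +kernel

theorem sn4 : ∃ sn ∈ D4.b4.ss, sn.code = cm (4 - 1) 1 0 := by decide +kernel

/-- the lower bound of the sixth cumulant, order 4 -/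
theorem main4 (h : FinStatement) : ∃ c0 : ℝ, 0 < c0 ∧ ∀ (S : Finset ℕ) (P : R), Cha S 4 P →
    ∀ i : ℕ, c0 * E (pderiv i P ^ 2) ^ 3 ≤ k6 P := by
  obtain ⟨sn, h1, h2⟩ := sn4
  exact h 4 D4.N D4.tab D4.b4 sn (by norm_num) (by norm_num) (by decide +kernel) nd4 okall4
    ddall4 (List.Mem.tail _ (List.Mem.head _)) h1 h2 (enum_of en4)

end A602.S6.K
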