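import Pool.Agent.Lib.MP_a60258_s6.Iface
import Pool.Agent.Lib.MP_a60258_s6.K.E5_0
import Pool.Agent.Lib.MP_a60258_s6.K.O5_0

/-! Assembly for p = 5 (generated). -/

set_option maxRecDepth 1000000

open MvPolynomial

namespace A602.S6.K

theorem en5 : enL 5 D5.N D5.tab (pieces 5) = true :=
  enL_pco (l := K.E5_0.g0)
    (by decide +kernel) (K.E5_0.e0)

theorem ok5_b7 : okB 5 D5.b7 = true := K.O5_0.ok_b7

theorem ok5_b6 : okB 5 D5.b6 = true := K.O5_0.ok_b6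

theorem ok5_b5 : okB 5 D5.b5 = true := K.O5_0.ok_b5

theorem ok5_b4 : okB 5 D5.b4 = true := K.O5_0.ok_b4

theorem ok5_b3 : okB 5 D5.b3 = true := K.O5_0.ok_b3

theorem ok5_b2 : okB 5 D5.b2 = true := K.O5_0.ok_b2

theorem okall5 : ∀ bl ∈ D5.tab, okB 5 bl = true := by
  intro bl hbl
  have h : bl ∈ ([D5.b7, D5.b6, D5.b5, D5.b4, D5.b3, D5.b2] : List BL) := hbl
  simp only [List.mem_cons, List.not_mem_nil, or_false] at h
  rcases h with h | h | h | h | h | h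
  · rw [h]; exact ok5_b7
  · rw [h]; exact ok5_b6
  · rw [h]; exact ok5_b5
  · rw [h]; exact ok5_b4
  · rw [h]; exact ok5_b3
  · rw [h]; exact ok5_b2

theorem ddall5 : ∀ bl ∈ D5.tab, ddB 5 (cm (5 - 1) 1 0) bl = true := by
  intro bl hbl
  have h : bl ∈ ([D5.b7, D5.b6, D5.b5, D5.b4, D5.b3, D5.b2] : List BL) := hbl
  simp only [List.mem_cons, List.not_mem_nil, or_false] at h
  rcases h with h | h | h | h | h | h
  · rw [h]; exact K.O5_0.dd_b7
  · rw [h]; exact K.O5_0.dd_b6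
  · rw [h]; exact K.O5_0.dd_b5
  · rw [h]; exact K.O5_0.dd_b4
  · rw [h]; exact K.O5_0.dd_b3
  · rw [h]; exact K.O5_0.dd_b2

theorem nd5 : (D5.tab.map fun b => b.key).Nodup := by decide +kernel

theorem sn5 : ∃ sn ∈ D5.b5.ss, sn.code = cm (5 - 1) 1 0 := by decide +kernel

/-- the lower bound of the sixth cumulant, order 5 -/
theorem main5 (h : FinStatement) : ∃ c0 : ℝ, 0 < c0 ∧ ∀ (S : Finset ℕ) (P : R), Cha S 5 P →
    ∀ i : ℕ, c0 * E (pderiv i P ^ 2) ^ 3 ≤ k6 P := by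
  obtain ⟨sn, h1, h2⟩ := sn5
  exact h 5 D5.N D5.tab D5.b5 sn (by norm_num) (by norm_num) (by decide +kernel) nd5 okall5
    ddall5 (List.Mem.tail _ (List.Mem.tail _ (List.Mem.head _))) h1 h2 (enum_of en5)

end A602.S6.K
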