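import Pool.Agent.Lib.MP_a60258_s6.Iface
import Pool.Agent.Lib.MP_a60258_s6.K.E6_0
import Pool.Agent.Lib.MP_a60258_s6.K.O6_0

/-! Assembly for p = 6 (generated). -/

set_option maxRecDepth 1000000

open MvPolynomial

namespace A602.S6.K

theorem en6 : enL 6 D6.N D6.tab (pieces 6) = true :=
  enL_pco (l := K.E6_0.g0)
    (by decide +kernel) (K.E6_0.e0)

theorem ok6_b8 : okB 6 D6.b8 = true := K.O6_0.ok_b8

theorem ok6_b7 : okB 6 D6.b7 = true := K.O6_0.ok_b7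

theorem ok6_b6 : okB 6 D6.b6 = true := K.O6_0.ok_b6

theorem ok6_b5 : okB 6 D6.b5 = true := K.O6_0.ok_b5

theorem ok6_b4 : okB 6 D6.b4 = true := K.O6_0.ok_b4

theorem ok6_b3 : okB 6 D6.b3 = true := K.O6_0.ok_b3

theorem ok6_b2 : okB 6 D6.b2 = true := K.O6_0.ok_b2

theorem okall6 : ∀ bl ∈ D6.tab, okB 6 bl = true := by
  intro bl hbl
  have h : bl ∈ ([D6.b8, D6.b7, D6.b6, D6.b5, D6.b4, D6.b3, D6.b2] : List BL) := hbl
  simp only [List.mem_cons, List.not_mem_nil, or_false] at h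
  rcases h with h | h | h | h | h | h | h
  · rw [h]; exact ok6_b8
  · rw [h]; exact ok6_b7
  · rw [h]; exact ok6_b6
  · rw [h]; exact ok6_b5
  · rw [h]; exact ok6_b4
  · rw [h]; exact ok6_b3
  · rw [h]; exact ok6_b2

theorem ddall6 : ∀ bl ∈ D6.tab, ddB 6 (cm (6 - 1) 1 0) bl = true := by
  intro bl hbl
  have h : bl ∈ ([D6.b8, D6.b7, D6.b6, D6.b5, D6.b4, D6.b3, D6.b2] : List BL) := hbl
  simp only [List.mem_cons, List.not_mem_nil, or_false] at h
  rcases h with h | h | h | h | h | h | h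
  · rw [h]; exact K.O6_0.dd_b8
  · rw [h]; exact K.O6_0.dd_b7
  · rw [h]; exact K.O6_0.dd_b6
  · rw [h]; exact K.O6_0.dd_b5
  · rw [h]; exact K.O6_0.dd_b4
  · rw [h]; exact K.O6_0.dd_b3
  · rw [h]; exact K.O6_0.dd_b2

theorem nd6 : (D6.tab.map fun b => b.key).Nodup := by decide +kernel

theorem sn6 : ∃ sn ∈ D6.b6.ss, sn.code = cm (6 - 1) 1 0 := by decide +kernel

/-- the lower bound of the sixth cumulant, order 6 -/
theorem main6 (h : FinStatement) : ∃ c0 : ℝ, 0 < c0 ∧ ∀ (S : Finset ℕ) (P : R), Cha S 6 P →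
    ∀ i : ℕ, c0 * E (pderiv i P ^ 2) ^ 3 ≤ k6 P := by
  obtain ⟨sn, h1, h2⟩ := sn6
  exact h 6 D6.N D6.tab D6.b6 sn (by norm_num) (by norm_num) (by decide +kernel) nd6 okall6
    ddall6 (List.Mem.tail _ (List.Mem.tail _ (List.Mem.head _))) h1 h2 (enum_of en6)

end A602.S6.K
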