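import Pool.Agent.Lib.MP_a60258_s6.Iface
import Pool.Agent.Lib.MP_a60258_s6.K.E7_0
import Pool.Agent.Lib.MP_a60258_s6.K.O7_0

/-! Assembly for p = 7 (generated). -/

set_option maxRecDepth 1000000

open MvPolynomial

namespace A602.S6.K

theorem en7 : enL 7 D7.N D7.tab (pieces 7) = true :=
  enL_pco (l := K.E7_0.g0 ++ (K.E7_0.g1 ++ (K.E7_0.g2 ++ (K.E7_0.g3))))
    (by decide +kernel) (enL_append K.E7_0.e0 (enL_append K.E7_0.e1 (enL_append K.E7_0.e2 (K.E7_0.e3))))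

theorem ok7_b10 : okB 7 D7.b10 = true := K.O7_0.ok_b10

theorem ok7_b9 : okB 7 D7.b9 = true := K.O7_0.ok_b9

theorem ok7_b8 : okB 7 D7.b8 = true := K.O7_0.ok_b8

theorem ok7_b7 : okB 7 D7.b7 = true := K.O7_0.ok_b7

theorem ok7_b6 : okB 7 D7.b6 = true := K.O7_0.ok_b6

theorem ok7_b5 : okB 7 D7.b5 = true := K.O7_0.ok_b5

theorem ok7_b4 : okB 7 D7.b4 = true := K.O7_0.ok_b4

theorem ok7_b3 : okB 7 D7.b3 = true := K.O7_0.ok_b3

theorem ok7_b2 : okB 7 D7.b2 = true := K.O7_0.ok_b2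

theorem okall7 : ∀ bl ∈ D7.tab, okB 7 bl = true := by
  intro bl hbl
  have h : bl ∈ ([D7.b10, D7.b9, D7.b8, D7.b7, D7.b6, D7.b5, D7.b4, D7.b3, D7.b2] : List BL) := hbl
  simp only [List.mem_cons, List.not_mem_nil, or_false] at h
  rcases h with h | h | h | h | h | h | h | h | h
  · rw [h]; exact ok7_b10
  · rw [h]; exact ok7_b9
  · rw [h]; exact ok7_b8
  · rw [h]; exact ok7_b7
  · rw [h]; exact ok7_b6
  · rw [h]; exact ok7_b5
  · rw [h]; exact ok7_b4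
  · rw [h]; exact ok7_b3
  · rw [h]; exact ok7_b2

theorem ddall7 : ∀ bl ∈ D7.tab, ddB 7 (cm (7 - 1) 1 0) bl = true := by
  intro bl hbl
  have h : bl ∈ ([D7.b10, D7.b9, D7.b8, D7.b7, D7.b6, D7.b5, D7.b4, D7.b3, D7.b2] : List BL) := hbl
  simp only [List.mem_cons, List.not_mem_nil, or_false] at h
  rcases h with h | h | h | h | h | h | h | h | h
  · rw [h]; exact K.O7_0.dd_b10
  · rw [h]; exact K.O7_0.dd_b9
  · rw [h]; exact K.O7_0.dd_b8
  · rw [h]; exact K.O7_0.dd_b7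
  · rw [h]; exact K.O7_0.dd_b6
  · rw [h]; exact K.O7_0.dd_b5
  · rw [h]; exact K.O7_0.dd_b4
  · rw [h]; exact K.O7_0.dd_b3
  · rw [h]; exact K.O7_0.dd_b2

theorem nd7 : (D7.tab.map fun b => b.key).Nodup := by decide +kernel

theorem sn7 : ∃ sn ∈ D7.b7.ss, sn.code = cm (7 - 1) 1 0 := by decide +kernel

/-- the lower bound of the sixth cumulant, order 7 -/
theorem main7 (h : FinStatement) : ∃ c0 : ℝ, 0 < c0 ∧ ∀ (S : Finset ℕ) (P : R), Cha S 7 P →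
    ∀ i : ℕ, c0 * E (pderiv i P ^ 2) ^ 3 ≤ k6 P := by
  obtain ⟨sn, h1, h2⟩ := sn7
  exact h 7 D7.N D7.tab D7.b7 sn (by norm_num) (by norm_num) (by decide +kernel) nd7 okall7
    ddall7 (List.Mem.tail _ (List.Mem.tail _ (List.Mem.tail _ (List.Mem.head _)))) h1 h2 (enum_of en7)

end A602.S6.K
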