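import Pool.Agent.Lib.MP_a60258_s6.Split2
import Pool.Agent.Lib.MP_a60258_s6.D8

/-! Check of the blocks for p = 8, part 0 (generated). -/

set_option maxRecDepth 1000000

namespace A602.S6.K.O8_0

theorem ok_b11 : okB 8 D8.b11 = true := by decide +kernel

theorem dd_b11 : ddB 8 (cm (8 - 1) 1 0) D8.b11 = true := by decide +kernel

theorem ok_b10 : okB 8 D8.b10 = true := by decide +kernel

theorem dd_b10 : ddB 8 (cm (8 - 1) 1 0) D8.b10 = true := by decide +kernel

theorem ok_b9 : okB 8 D8.b9 = true := by decide +kernel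

theorem dd_b9 : ddB 8 (cm (8 - 1) 1 0) D8.b9 = true := by decide +kernel

theorem ok_b8 : okB 8 D8.b8 = true := by decide +kernel

theorem dd_b8 : ddB 8 (cm (8 - 1) 1 0) D8.b8 = true := by decide +kernel

theorem ok_b7 : okB 8 D8.b7 = true := by decide +kernel

theorem dd_b7 : ddB 8 (cm (8 - 1) 1 0) D8.b7 = true := by decide +kernel

theorem ok_b6 : okB 8 D8.b6 = true := by decide +kernel

theorem dd_b6 : ddB 8 (cm (8 - 1) 1 0) D8.b6 = true := by decide +kernel

theorem ok_b5 : okB 8 D8.b5 = true := by decide +kernel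

theorem dd_b5 : ddB 8 (cm (8 - 1) 1 0) D8.b5 = true := by decide +kernel

theorem ok_b4 : okB 8 D8.b4 = true := by decide +kernel

theorem dd_b4 : ddB 8 (cm (8 - 1) 1 0) D8.b4 = true := by decide +kernel

theorem ok_b3 : okB 8 D8.b3 = true := by decide +kernel

theorem dd_b3 : ddB 8 (cm (8 - 1) 1 0) D8.b3 = true := by decide +kernel

theorem ok_b2 : okB 8 D8.b2 = true := by decide +kernel

theorem dd_b2 : ddB 8 (cm (8 - 1) 1 0) D8.b2 = true := by decide +kernel

end A602.S6.K.O8_0
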