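import Pool.Agent.Lib.MP_a60258_s6.Iface
import Pool.Agent.Lib.MP_a60258_s6.K.E8_0
import Pool.Agent.Lib.MP_a60258_s6.K.E8_1
import Pool.Agent.Lib.MP_a60258_s6.K.E8_2
import Pool.Agent.Lib.MP_a60258_s6.K.O8_0

/-! Assembly for p = 8 (generated). -/

set_option maxRecDepth 1000000

open MvPolynomial

namespace A602.S6.K

theorem en8 : enL 8 D8.N D8.tab (pieces 8) = true :=
  enL_pco (l := K.E8_0.g0 ++ (K.E8_0.g1 ++ (K.E8_0.g2 ++ (K.E8_0.g3 ++ (K.E8_1.g0 ++ (K.E8_1.g1 ++ (K.E8_1.g2 ++ (K.E8_1.g3 ++ (K.E8_2.g0 ++ (K.E8_2.g1))))))))))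
    (by decide +kernel) (enL_append K.E8_0.e0 (enL_append K.E8_0.e1 (enL_append K.E8_0.e2 (enL_append K.E8_0.e3 (enL_append K.E8_1.e0 (enL_append K.E8_1.e1 (enL_append K.E8_1.e2 (enL_append K.E8_1.e3 (enL_append K.E8_2.e0 (K.E8_2.e1))))))))))

theorem ok8_b11 : okB 8 D8.b11 = true := K.O8_0.ok_b11

theorem ok8_b10 : okB 8 D8.b10 = true := K.O8_0.ok_b10

theorem ok8_b9 : okB 8 D8.b9 = true := K.O8_0.ok_b9

theorem ok8_b8 : okB 8 D8.b8 = true := K.O8_0.ok_b8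

theorem ok8_b7 : okB 8 D8.b7 = true := K.O8_0.ok_b7

theorem ok8_b6 : okB 8 D8.b6 = true := K.O8_0.ok_b6

theorem ok8_b5 : okB 8 D8.b5 = true := K.O8_0.ok_b5

theorem ok8_b4 : okB 8 D8.b4 = true := K.O8_0.ok_b4

theorem ok8_b3 : okB 8 D8.b3 = true := K.O8_0.ok_b3

theorem ok8_b2 : okB 8 D8.b2 = true := K.O8_0.ok_b2

theorem okall8 : ∀ bl ∈ D8.tab, okB 8 bl = true := by
  intro bl hbl
  have h : bl ∈ ([D8.b11, D8.b10, D8.b9, D8.b8, D8.b7, D8.b6, D8.b5, D8.b4, D8.b3, D8.b2] : List BL) := hbl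
  simp only [List.mem_cons, List.not_mem_nil, or_false] at h
  rcases h with h | h | h | h | h | h | h | h | h | h
  · rw [h]; exact ok8_b11
  · rw [h]; exact ok8_b10
  · rw [h]; exact ok8_b9
  · rw [h]; exact ok8_b8
  · rw [h]; exact ok8_b7
  · rw [h]; exact ok8_b6
  · rw [h]; exact ok8_b5
  · rw [h]; exact ok8_b4
  · rw [h]; exact ok8_b3
  · rw [h]; exact ok8_b2

theorem ddall8 : ∀ bl ∈ D8.tab, ddB 8 (cm (8 - 1) 1 0) bl = true := by
  intro bl hbl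
  have h : bl ∈ ([D8.b11, D8.b10, D8.b9, D8.b8, D8.b7, D8.b6, D8.b5, D8.b4, D8.b3, D8.b2] : List BL) := hbl
  simp only [List.mem_cons, List.not_mem_nil, or_false] at h
  rcases h with h | h | h | h | h | h | h | h | h | h
  · rw [h]; exact K.O8_0.dd_b11
  · rw [h]; exact K.O8_0.dd_b10
  · rw [h]; exact K.O8_0.dd_b9
  · rw [h]; exact K.O8_0.dd_b8
  · rw [h]; exact K.O8_0.dd_b7
  · rw [h]; exact K.O8_0.dd_b6
  · rw [h]; exact K.O8_0.dd_b5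
  · rw [h]; exact K.O8_0.dd_b4
  · rw [h]; exact K.O8_0.dd_b3
  · rw [h]; exact K.O8_0.dd_b2

theorem nd8 : (D8.tab.map fun b => b.key).Nodup := by decide +kernel

theorem sn8 : ∃ sn ∈ D8.b8.ss, sn.code = cm (8 - 1) 1 0 := by decide +kernel

/-- the lower bound of the sixth cumulant, order 8 -/
theorem main8 (h : FinStatement) : ∃ c0 : ℝ, 0 < c0 ∧ ∀ (S : Finset ℕ) (P : R), Cha S 8 P →
    ∀ i : ℕ, c0 * E (pderiv i P ^ 2) ^ 3 ≤ k6 P := by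
  obtain ⟨sn, h1, h2⟩ := sn8
  exact h 8 D8.N D8.tab D8.b8 sn (by norm_num) (by norm_num) (by decide +kernel) nd8 okall8
    ddall8 (List.Mem.tail _ (List.Mem.tail _ (List.Mem.tail _ (List.Mem.head _)))) h1 h2 (enum_of en8)

end A602.S6.K
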