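import Pool.Agent.Lib.MP_a60258_s6.Split2
import Pool.Agent.Lib.MP_a60258_s6.D9

/-! Check of the blocks for p = 9, part 0 (generated). -/

set_option maxRecDepth 1000000

namespace A602.S6.K.O9_0

theorem ok_b13 : okB 9 D9.b13 = true := by decide +kernel

theorem dd_b13 : ddB 9 (cm (9 - 1) 1 0) D9.b13 = true := by decide +kernel

theorem ok_b12 : okB 9 D9.b12 = true := by decide +kernel

theorem dd_b12 : ddB 9 (cm (9 - 1) 1 0) D9.b12 = true := by decide +kernel

theorem ok_b11 : okB 9 D9.b11 = true := by decide +kernel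

theorem dd_b11 : ddB 9 (cm (9 - 1) 1 0) D9.b11 = true := by decide +kernel

theorem ok_b10 : okB 9 D9.b10 = true := by decide +kernel

theorem dd_b10 : ddB 9 (cm (9 - 1) 1 0) D9.b10 = true := by decide +kernel

theorem ok_b9 : okB 9 D9.b9 = true := by decide +kernel

theorem dd_b9 : ddB 9 (cm (9 - 1) 1 0) D9.b9 = true := by decide +kernel

theorem ok_b8 : okB 9 D9.b8 = true := by decide +kernel

theorem dd_b8 : ddB 9 (cm (9 - 1) 1 0) D9.b8 = true := by decide +kernel

theorem ok_b7 : okB 9 D9.b7 = true := by decide +kernel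

theorem dd_b7 : ddB 9 (cm (9 - 1) 1 0) D9.b7 = true := by decide +kernel

end A602.S6.K.O9_0
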