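import Pool.Agent.Lib.MP_a60258_s6.Iface
import Pool.Agent.Lib.MP_a60258_s6.K.E9_0
import Pool.Agent.Lib.MP_a60258_s6.K.E9_1
import Pool.Agent.Lib.MP_a60258_s6.K.E9_2
import Pool.Agent.Lib.MP_a60258_s6.K.E9_3
import Pool.Agent.Lib.MP_a60258_s6.K.E9_4
import Pool.Agent.Lib.MP_a60258_s6.K.E9_5
import Pool.Agent.Lib.MP_a60258_s6.K.E9_6
import Pool.Agent.Lib.MP_a60258_s6.K.E9_7
import Pool.Agent.Lib.MP_a60258_s6.K.O9_0
import Pool.Agent.Lib.MP_a60258_s6.K.O9_1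

/-! Assembly for p = 9 (generated). -/

set_option maxRecDepth 1000000

open MvPolynomial

namespace A602.S6.K

theorem en9 : enL 9 D9.N D9.tab (pieces 9) = true :=
  enL_pco (l := K.E9_0.g0 ++ (K.E9_0.g1 ++ (K.E9_0.g2 ++ (K.E9_0.g3 ++ (K.E9_0.g4 ++ (K.E9_0.g5 ++ (K.E9_1.g0 ++ (K.E9_1.g1 ++ (K.E9_1.g2 ++ (K.E9_1.g3 ++ (K.E9_1.g4 ++ (K.E9_2.g0 ++ (K.E9_2.g1 ++ (K.E9_2.g2 ++ (K.E9_2.g3 ++ (K.E9_2.g4 ++ (K.E9_3.g0 ++ (K.E9_3.g1 ++ (K.E9_3.g2 ++ (K.E9_3.g3 ++ (K.E9_4.g0 ++ (K.E9_4.g1 ++ (K.E9_4.g2 ++ (K.E9_4.g3 ++ (K.E9_4.g4 ++ (K.E9_5.g0 ++ (K.E9_5.g1 ++ (K.E9_5.g2 ++ (K.E9_5.g3 ++ (K.E9_5.g4 ++ (K.E9_5.g5 ++ (K.E9_6.g0 ++ (K.E9_6.g1 ++ (K.E9_6.g2 ++ (K.E9_6.g3 ++ (K.E9_6.g4 ++ (K.E9_7.g0)))))))))))))))))))))))))))))))))))))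
    (by decide +kernel) (enL_append K.E9_0.e0 (enL_append K.E9_0.e1 (enL_append K.E9_0.e2 (enL_append K.E9_0.e3 (enL_append K.E9_0.e4 (enL_append K.E9_0.e5 (enL_append K.E9_1.e0 (enL_append K.E9_1.e1 (enL_append K.E9_1.e2 (enL_append K.E9_1.e3 (enL_append K.E9_1.e4 (enL_append K.E9_2.e0 (enL_append K.E9_2.e1 (enL_append K.E9_2.e2 (enL_append K.E9_2.e3 (enL_append K.E9_2.e4 (enL_append K.E9_3.e0 (enL_append K.E9_3.e1 (enL_append K.E9_3.e2 (enL_append K.E9_3.e3 (enL_append K.E9_4.e0 (enL_append K.E9_4.e1 (enL_append K.E9_4.e2 (enL_append K.E9_4.e3 (enL_append K.E9_4.e4 (enL_append K.E9_5.e0 (enL_append K.E9_5.e1 (enL_append K.E9_5.e2 (enL_append K.E9_5.e3 (enL_append K.E9_5.e4 (enL_append K.E9_5.e5 (enL_append K.E9_6.e0 (enL_append K.E9_6.e1 (enL_append K.E9_6.e2 (enL_append K.E9_6.e3 (enL_append K.E9_6.e4 (K.E9_7.e0)))))))))))))))))))))))))))))))))))))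

theorem ok9_b13 : okB 9 D9.b13 = true := K.O9_0.ok_b13

theorem ok9_b12 : okB 9 D9.b12 = true := K.O9_0.ok_b12

theorem ok9_b11 : okB 9 D9.b11 = true := K.O9_0.ok_b11

theorem ok9_b10 : okB 9 D9.b10 = true := K.O9_0.ok_b10

theorem ok9_b9 : okB 9 D9.b9 = true := K.O9_0.ok_b9

theorem ok9_b8 : okB 9 D9.b8 = true := K.O9_0.ok_b8

theorem ok9_b7 : okB 9 D9.b7 = true := K.O9_0.ok_b7

theorem ok9_b6 : okB 9 D9.b6 = true := K.O9_1.ok_b6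

theorem ok9_b5 : okB 9 D9.b5 = true := K.O9_1.ok_b5

theorem ok9_b4 : okB 9 D9.b4 = true := K.O9_1.ok_b4

theorem ok9_b3 : okB 9 D9.b3 = true := K.O9_1.ok_b3

theorem ok9_b2 : okB 9 D9.b2 = true := K.O9_1.ok_b2

theorem okall9 : ∀ bl ∈ D9.tab, okB 9 bl = true := by
  intro bl hbl
  have h : bl ∈ ([D9.b13, D9.b12, D9.b11, D9.b10, D9.b9, D9.b8, D9.b7, D9.b6, D9.b5, D9.b4, D9.b3, D9.b2] : List BL) := hbl
  simp only [List.mem_cons, List.not_mem_nil, or_false] at h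
  rcases h with h | h | h | h | h | h | h | h | h | h | h | h
  · rw [h]; exact ok9_b13
  · rw [h]; exact ok9_b12
  · rw [h]; exact ok9_b11
  · rw [h]; exact ok9_b10
  · rw [h]; exact ok9_b9
  · rw [h]; exact ok9_b8
  · rw [h]; exact ok9_b7
  · rw [h]; exact ok9_b6
  · rw [h]; exact ok9_b5
  · rw [h]; exact ok9_b4
  · rw [h]; exact ok9_b3
  · rw [h]; exact ok9_b2

theorem ddall9 : ∀ bl ∈ D9.tab, ddB 9 (cm (9 - 1) 1 0) bl = true := by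
  intro bl hbl
  have h : bl ∈ ([D9.b13, D9.b12, D9.b11, D9.b10, D9.b9, D9.b8, D9.b7, D9.b6, D9.b5, D9.b4, D9.b3, D9.b2] : List BL) := hbl
  simp only [List.mem_cons, List.not_mem_nil, or_false] at h
  rcases h with h | h | h | h | h | h | h | h | h | h | h | h
  · rw [h]; exact K.O9_0.dd_b13
  · rw [h]; exact K.O9_0.dd_b12
  · rw [h]; exact K.O9_0.dd_b11
  · rw [h]; exact K.O9_0.dd_b10
  · rw [h]; exact K.O9_0.dd_b9
  · rw [h]; exact K.O9_0.dd_b8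
  · rw [h]; exact K.O9_0.dd_b7
  · rw [h]; exact K.O9_1.dd_b6
  · rw [h]; exact K.O9_1.dd_b5
  · rw [h]; exact K.O9_1.dd_b4
  · rw [h]; exact K.O9_1.dd_b3
  · rw [h]; exact K.O9_1.dd_b2

theorem nd9 : (D9.tab.map fun b => b.key).Nodup := by decide +kernel

theorem sn9 : ∃ sn ∈ D9.b9.ss, sn.code = cm (9 - 1) 1 0 := by decide +kernel

/-- the lower bound of the sixth cumulant, order 9 -/
theorem main9 (h : FinStatement) : ∃ c0 : ℝ, 0 < c0 ∧ ∀ (S : Finset ℕ) (P : R), Cha S 9 P →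
    ∀ i : ℕ, c0 * E (pderiv i P ^ 2) ^ 3 ≤ k6 P := by
  obtain ⟨sn, h1, h2⟩ := sn9
  exact h 9 D9.N D9.tab D9.b9 sn (by norm_num) (by norm_num) (by decide +kernel) nd9 okall9
    ddall9 (List.Mem.tail _ (List.Mem.tail _ (List.Mem.tail _ (List.Mem.tail _ (List.Mem.head _))))) h1 h2 (enum_of en9)

end A602.S6.K
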