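import Pool.Agent.Lib.MP_a60258_s6.Split2
import Pool.Agent.Lib.MP_a60258_s6.D10

/-! Check of the blocks for p = 10, part 1 (generated). -/

set_option maxRecDepth 1000000

namespace A602.S6.K.O10_1

theorem ok_b9_5 : okP 10 D10.b9 5 1 = true := by decide +kernel

theorem ok_b9_6 : okP 10 D10.b9 6 1 = true := by decide +kernel

theorem ok_b9_7 : okP 10 D10.b9 7 4 = true := by decide +kernel

theorem oh_b9 : okH 10 D10.b9 = true := by decide +kernel

theorem oz_b9 : okD 10 D10.b9 11 = true := by decide +kernel

theorem dd_b9 : ddB 10 (cm (10 - 1) 1 0) D10.b9 = true := by decide +kernel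

theorem ok_b8_0 : okP 10 D10.b8 0 2 = true := by decide +kernel

theorem ok_b8_2 : okP 10 D10.b8 2 1 = true := by decide +kernel

theorem ok_b8_3 : okP 10 D10.b8 3 1 = true := by decide +kernel

end A602.S6.K.O10_1
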